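import Pool.Agent.Full.Mom.Avg

/-!
# Exponential moments from tails, blocks
-/

set_option linter.unusedSectionVars false

namespace Full.Mom

open Finset

variable {ι : Type*} [Fintype ι] [DecidableEq ι]

lemma pow_le_one_add_sum {y : ℝ} (hy : 1 ≤ y) (n : ℕ) :
    y ^ n ≤ 1 + ∑ j ∈ range n, y ^ (j + 1) := by
  induction n with
  | zero => simp
  | succ n ih =>
    rw [sum_range_succ]
    have h0 : 0 ≤ ∑ j ∈ range n, y ^ (j + 1) := sum_nonneg fun j _ => by positivity
    linarith

/-- exponential moment from an exponential tail -/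
theorem avg_pow_le {X : (ι → Bool) → ℕ} {C θ y : ℝ} (hC : 0 ≤ C) (hθ : 0 ≤ θ) (hy : 1 ≤ y)
    (hyθ : y * θ < 1) (h : ∀ j, 1 ≤ j → pr (fun ω => j ≤ X ω) ≤ C * θ ^ j) :
    avg (fun ω => y ^ X ω) ≤ 1 + C / (1 - y * θ) := by
  classical
  have hy0 : 0 ≤ y := by linarith
  have hq : 0 ≤ y * θ := mul_nonneg hy0 hθ
  obtain ⟨B, hB⟩ : ∃ B, ∀ ω, X ω ≤ B := ⟨univ.sup X, fun ω => le_sup (mem_univ ω)⟩
  have h1 : ∀ ω, y ^ X ω ≤ 1 + ∑ j ∈ range B, y ^ (j + 1) * (if j + 1 ≤ X ω then (1 : ℝ) else 0) := by
    intro ω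
    refine (pow_le_one_add_sum hy (X ω)).trans (add_le_add_right ?_ 1)
    calc ∑ j ∈ range (X ω), y ^ (j + 1)
        = ∑ j ∈ range (X ω), y ^ (j + 1) * (if j + 1 ≤ X ω then (1 : ℝ) else 0) := by
          apply sum_congr rfl
          intro j hj
          rw [if_pos (by rw [mem_range] at hj; omega), mul_one]
      _ ≤ ∑ j ∈ range B, y ^ (j + 1) * (if j + 1 ≤ X ω then (1 : ℝ) else 0) := by
          apply sum_le_sum_of_subset_of_nonneg
          · exact range_subset_range.2 (hB ω)
          · intro j _ _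
            have : 0 ≤ y ^ (j + 1) := by positivity
            split_ifs
            · linarith
            · linarith
  calc avg (fun ω => y ^ X ω)
      ≤ avg (fun ω => 1 + ∑ j ∈ range B, y ^ (j + 1) * (if j + 1 ≤ X ω then (1 : ℝ) else 0)) :=
        avg_mono h1
    _ = 1 + ∑ j ∈ range B, y ^ (j + 1) * pr (fun ω => j + 1 ≤ X ω) := by
        rw [avg_add, avg_const, avg_sum]
        congr 1
        apply sum_congr rfl
        intro j _
        rw [avg_mul_left]
        congr 1
        unfold pr
        congr 1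
        funext ω
        congr
    _ ≤ 1 + ∑ j ∈ range B, C * (y * θ) ^ (j + 1) := by
        refine add_le_add_right (sum_le_sum fun j _ => ?_) 1
        calc y ^ (j + 1) * pr (fun ω => j + 1 ≤ X ω) ≤ y ^ (j + 1) * (C * θ ^ (j + 1)) := by
              gcongr
              exact h (j + 1) (by omega)
          _ = C * (y * θ) ^ (j + 1) := by rw [mul_pow]; ring
    _ ≤ 1 + C * ∑ j ∈ range B, (y * θ) ^ j := by
        rw [mul_sum]
        refine add_le_add_right (sum_le_sum fun j _ => ?_) 1
        exact mul_le_mul_of_nonneg_left (pow_le_pow_of_le_one hq hyθ.le (by omega)) hC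
    _ ≤ 1 + C * (1 / (1 - y * θ)) := by
        gcongr
        have h2 := geom_sum_eq hyθ.ne B
        rw [h2, ← neg_div_neg_eq]
        have h3 : 0 < 1 - y * θ := by linarith
        rw [neg_sub, neg_sub]
        gcongr
        have : 0 ≤ (y * θ) ^ B := by positivity
        linarith
    _ = 1 + C / (1 - y * θ) := by rw [mul_one_div]

/-- a product of nonnegative numbers is at most the sum of the powers -/
lemma prod_le_sum_pow {κ : Type*} (s : Finset κ) (hs : s.Nonempty) (a : κ → ℝ)
    (ha : ∀ k ∈ s, 0 ≤ a k) : ∏ k ∈ s, a k ≤ ∑ k ∈ s, a k ^ s.card := by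
  obtain ⟨m, hm, hmax⟩ := s.exists_max_image a hs
  calc ∏ k ∈ s, a k ≤ ∏ _k ∈ s, a m := prod_le_prod ha hmax
    _ = a m ^ s.card := prod_const _
    _ ≤ ∑ k ∈ s, a k ^ s.card :=
      single_le_sum (f := fun k => a k ^ s.card) (fun k hk => pow_nonneg (ha k hk) _) hm

/-- exponential moments of a sum of block variables: the blocks are divided into `3` classes,
blocks of the same class are independent -/
theorem avg_pow_blocks {B : ℕ} {X : (ι → Bool) → ℕ} {A : ℕ → Set ι} {Y : ℕ → (ι → Bool) → ℕ}
    (hA : ∀ k < B, ∀ l < B, k ≠ l → k % 3 = l % 3 → Disjoint (A k) (A l))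
    (hY : ∀ k < B, Dep (A k) (Y k)) (hX : ∀ ω, X ω ≤ ∑ k ∈ range B, Y k ω) {y D : ℝ}
    (hy : 1 ≤ y) (hD : 1 ≤ D) (h : ∀ k < B, avg (fun ω => (y ^ 3) ^ Y k ω) ≤ D) :
    avg (fun ω => y ^ X ω) ≤ 3 * D ^ B := by
  classical
  have hy0 : 0 ≤ y := by linarith
  have h1 : ∀ ω, y ^ X ω ≤ ∑ r ∈ range 3, ∏ k ∈ (range B).filter (fun k => k % 3 = r),
      (y ^ 3) ^ Y k ω := by
    intro ω
    have e1 : ∑ k ∈ range B, Y k ω = ∑ r ∈ range 3, ∑ k ∈ (range B).filter (fun k => k % 3 = r),
        Y k ω := by
      rw [sum_fiberwise_of_maps_to]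
      intro k _
      exact mem_range.2 (Nat.mod_lt _ (by norm_num))
    calc y ^ X ω ≤ y ^ ∑ k ∈ range B, Y k ω := pow_le_pow_right₀ hy (hX ω)
      _ = ∏ r ∈ range 3, y ^ ∑ k ∈ (range B).filter (fun k => k % 3 = r), Y k ω := by
        rw [e1, prod_pow_eq_pow_sum]
      _ ≤ ∑ r ∈ range 3, (y ^ ∑ k ∈ (range B).filter (fun k => k % 3 = r), Y k ω) ^ 3 := by
        have := prod_le_sum_pow (range 3) ⟨0, by simp⟩
          (fun r => y ^ ∑ k ∈ (range B).filter (fun k => k % 3 = r), Y k ω)
          (fun r _ => by positivity)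
        simpa only [card_range] using this
      _ = ∑ r ∈ range 3, ∏ k ∈ (range B).filter (fun k => k % 3 = r), (y ^ 3) ^ Y k ω := by
        apply sum_congr rfl
        intro r _
        rw [prod_pow_eq_pow_sum, ← pow_mul, ← pow_mul, mul_comm]
  calc avg (fun ω => y ^ X ω) ≤ avg (fun ω => ∑ r ∈ range 3,
        ∏ k ∈ (range B).filter (fun k => k % 3 = r), (y ^ 3) ^ Y k ω) := avg_mono h1
    _ = ∑ r ∈ range 3, avg (fun ω => ∏ k ∈ (range B).filter (fun k => k % 3 = r),
        (y ^ 3) ^ Y k ω) := avg_sum _ _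
    _ ≤ ∑ _r ∈ range 3, D ^ B := by
        apply sum_le_sum
        intro r _
        have hA' : ∀ k ∈ (range B).filter (fun k => k % 3 = r),
            ∀ l ∈ (range B).filter (fun k => k % 3 = r), k ≠ l → Disjoint (A k) (A l) := by
          intro k hk l hl hkl
          rw [mem_filter, mem_range] at hk hl
          exact hA k hk.1 l hl.1 hkl (by rw [hk.2, hl.2])
        have hf' : ∀ k ∈ (range B).filter (fun k => k % 3 = r),
            Dep (A k) (fun ω => (y ^ 3) ^ Y k ω) := by
          intro k hk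
          rw [mem_filter, mem_range] at hk
          exact (hY k hk.1).comp fun n => (y ^ 3) ^ n
        rw [avg_prod _ (A := A) (f := fun k ω => (y ^ 3) ^ Y k ω) hA' hf']
        · calc ∏ k ∈ (range B).filter (fun k => k % 3 = r), avg (fun ω => (y ^ 3) ^ Y k ω)
              ≤ ∏ _k ∈ (range B).filter (fun k => k % 3 = r), D := by
                apply prod_le_prod
                · intro k _
                  exact avg_nonneg fun ω => by positivity
                · intro k hk
                  exact h k (mem_range.1 (mem_filter.1 hk).1)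
            _ = D ^ ((range B).filter (fun k => k % 3 = r)).card := prod_const _
            _ ≤ D ^ B := by
                apply pow_le_pow_right₀ hD
                calc ((range B).filter (fun k => k % 3 = r)).card ≤ (range B).card :=
                      card_filter_le _ _
                  _ = B := card_range B
    _ = 3 * D ^ B := by rw [sum_const, card_range, nsmul_eq_mul]; norm_num

end Full.Mom
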