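import Mathlib

/-!
# Averages over finitely many fair bits: independence, Markov, bands, exponential moments
-/

set_option linter.unusedSectionVars false

namespace Full.Mom

open Finset

variable {ι : Type*} [Fintype ι] [DecidableEq ι]

/-- average over all configurations of fair bits -/
noncomputable def avg (f : (ι → Bool) → ℝ) : ℝ := (∑ ω, f ω) / 2 ^ Fintype.card ι

/-- `f` depends only on the bits in `A` -/
def Dep {β : Type*} (A : Set ι) (f : (ι → Bool) → β) : Prop :=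
  ∀ ω ω' : ι → Bool, (∀ i ∈ A, ω i = ω' i) → f ω = f ω'

lemma Dep.mono {β : Type*} {A B : Set ι} {f : (ι → Bool) → β} (h : Dep A f) (hAB : A ⊆ B) :
    Dep B f := fun ω ω' hw => h ω ω' fun i hi => hw i (hAB hi)

lemma Dep.comp {β γ : Type*} {A : Set ι} {f : (ι → Bool) → β} (h : Dep A f) (g : β → γ) :
    Dep A (fun ω => g (f ω)) := fun ω ω' hw => congrArg g (h ω ω' hw)

lemma Dep.mul {A : Set ι} {f g : (ι → Bool) → ℝ} (h : Dep A f) (h' : Dep A g) :
    Dep A (fun ω => f ω * g ω) := fun ω ω' hw => by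
  show f ω * g ω = f ω' * g ω'
  rw [h ω ω' hw, h' ω ω' hw]

lemma avg_const (c : ℝ) : avg (fun _ : ι → Bool => c) = c := by
  unfold avg
  rw [sum_const, card_univ, Fintype.card_fun, Fintype.card_bool, nsmul_eq_mul]
  push_cast
  field_simp

lemma avg_add (f g : (ι → Bool) → ℝ) : avg (fun ω => f ω + g ω) = avg f + avg g := by
  unfold avg
  rw [sum_add_distrib, add_div]

lemma avg_sum {κ : Type*} (s : Finset κ) (f : κ → (ι → Bool) → ℝ) :
    avg (fun ω => ∑ k ∈ s, f k ω) = ∑ k ∈ s, avg (f k) := by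
  unfold avg
  rw [sum_comm, sum_div]

lemma avg_mul_left (c : ℝ) (f : (ι → Bool) → ℝ) : avg (fun ω => c * f ω) = c * avg f := by
  unfold avg
  rw [← mul_sum, mul_div_assoc]

lemma avg_mono {f g : (ι → Bool) → ℝ} (h : ∀ ω, f ω ≤ g ω) : avg f ≤ avg g := by
  unfold avg
  gcongr with ω
  exact h ω

lemma avg_nonneg {f : (ι → Bool) → ℝ} (h : ∀ ω, 0 ≤ f ω) : 0 ≤ avg f := by
  unfold avg
  exact div_nonneg (sum_nonneg fun ω _ => h ω) (by positivity)

/-- independence of functions of disjoint sets of bits -/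
theorem avg_mul {A : Set ι} {f g : (ι → Bool) → ℝ} (hf : Dep A f) (hg : Dep Aᶜ g) :
    avg (fun ω => f ω * g ω) = avg f * avg g := by
  classical
  let e := Equiv.piEquivPiSubtypeProd (fun i => i ∈ A) (fun _ : ι => Bool)
  let F : ({i // i ∈ A} → Bool) → ℝ := fun u => f (e.symm (u, fun _ => false))
  let G : ({i // i ∉ A} → Bool) → ℝ := fun v => g (e.symm (fun _ => false, v))
  have hF : ∀ u v, f (e.symm (u, v)) = F u := fun u v => hf _ _ fun i hi => by
    simp [e, Equiv.piEquivPiSubtypeProd, hi]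
  have hG : ∀ u v, g (e.symm (u, v)) = G v := fun u v => hg _ _ fun i hi => by
    have hi' : i ∉ A := hi
    simp [e, Equiv.piEquivPiSubtypeProd, hi']
  have s1 : ∀ h : (ι → Bool) → ℝ, ∑ ω, h ω = ∑ u, ∑ v, h (e.symm (u, v)) := fun h => by
    rw [← Fintype.sum_prod_type']
    exact (Equiv.sum_comp e.symm h).symm
  have hcard : (2 : ℝ) ^ Fintype.card ι =
      2 ^ Fintype.card {i // i ∈ A} * 2 ^ Fintype.card {i // i ∉ A} := by
    rw [← pow_add]
    congr 1
    rw [Fintype.card_subtype_compl, Nat.add_sub_cancel' (Fintype.card_subtype_le _)]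
  have n1 : ∑ _u : ({i // i ∈ A} → Bool), (1 : ℝ) = 2 ^ Fintype.card {i // i ∈ A} := by
    simp
  have n2 : ∑ _v : ({i // i ∉ A} → Bool), (1 : ℝ) = 2 ^ Fintype.card {i // i ∉ A} := by
    simp
  have p1 : ∑ ω, f ω * g ω = (∑ u, F u) * ∑ v, G v := by
    rw [s1]
    simp only [hF, hG]
    rw [sum_mul_sum]
  have p2 : ∑ ω, f ω = (∑ u, F u) * 2 ^ Fintype.card {i // i ∉ A} := by
    rw [s1]
    simp only [hF]
    rw [← n2, sum_mul_sum]
    simp
  have p3 : ∑ ω, g ω = 2 ^ Fintype.card {i // i ∈ A} * ∑ v, G v := by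
    rw [s1]
    simp only [hG]
    rw [← n1, sum_mul_sum]
    simp
  unfold avg
  rw [p1, p2, p3, hcard]
  have h1 : (2 : ℝ) ^ Fintype.card {i // i ∈ A} ≠ 0 := by positivity
  have h2 : (2 : ℝ) ^ Fintype.card {i // i ∉ A} ≠ 0 := by positivity
  field_simp

/-- independence of finitely many functions of disjoint sets of bits -/
theorem avg_prod {κ : Type*} [DecidableEq κ] (s : Finset κ) {A : κ → Set ι}
    {f : κ → (ι → Bool) → ℝ} (hA : ∀ k ∈ s, ∀ l ∈ s, k ≠ l → Disjoint (A k) (A l))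
    (hf : ∀ k ∈ s, Dep (A k) (f k)) :
    avg (fun ω => ∏ k ∈ s, f k ω) = ∏ k ∈ s, avg (f k) := by
  induction s using Finset.induction_on with
  | empty => simp [avg_const]
  | insert k s hk ih =>
    have h1 : (fun ω => ∏ l ∈ insert k s, f l ω) = fun ω => f k ω * ∏ l ∈ s, f l ω := by
      funext ω; rw [prod_insert hk]
    rw [h1, prod_insert hk, avg_mul (hf k (mem_insert_self _ _)),
      ih (fun a ha b hb => hA a (mem_insert_of_mem ha) b (mem_insert_of_mem hb))
        (fun a ha => hf a (mem_insert_of_mem ha))]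
    intro ω ω' hw
    apply prod_congr rfl
    intro l hl
    have hd : Disjoint (A k) (A l) := hA k (mem_insert_self _ _) l (mem_insert_of_mem hl)
      (fun h => hk (h ▸ hl))
    exact hf l (mem_insert_of_mem hl) _ _ fun i hi =>
      hw i (fun hik => Set.disjoint_left.1 hd hik hi)

open Classical in
/-- the probability of an event -/
noncomputable def pr (E : (ι → Bool) → Prop) : ℝ := avg (fun ω => if E ω then (1 : ℝ) else 0)

lemma pr_nonneg (E : (ι → Bool) → Prop) : 0 ≤ pr E := by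
  unfold pr
  exact avg_nonneg fun ω => by split_ifs <;> norm_num

lemma pr_le_one (E : (ι → Bool) → Prop) : pr E ≤ 1 := by
  rw [← avg_const (ι := ι) 1]
  unfold pr
  exact avg_mono fun ω => by split_ifs <;> norm_num

lemma pr_mono {E F : (ι → Bool) → Prop} (h : ∀ ω, E ω → F ω) : pr E ≤ pr F := by
  unfold pr
  apply avg_mono
  intro ω
  by_cases h1 : E ω
  · simp [h1, h ω h1]
  · simp only [h1, if_false]
    split_ifs <;> norm_num

/-- Markov -/
lemma pr_ge_le {X : (ι → Bool) → ℕ} {j : ℕ} (hj : 0 < j) :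
    pr (fun ω => j ≤ X ω) ≤ avg (fun ω => (X ω : ℝ)) / j := by
  have hj' : (0 : ℝ) < j := by exact_mod_cast hj
  unfold pr
  rw [le_div_iff₀ hj', mul_comm, ← avg_mul_left]
  apply avg_mono
  intro ω
  split_ifs with h
  · rw [mul_one]; exact_mod_cast h
  · rw [mul_zero]; positivity

/-- if `X` is at most each of the independent variables `Y k` then
`P (X ≥ j) ≤ ∏ P (Y k ≥ j)` -/
theorem pr_bands {κ : Type*} [DecidableEq κ] (s : Finset κ) {A : κ → Set ι}
    {X : (ι → Bool) → ℕ} {Y : κ → (ι → Bool) → ℕ}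
    (hA : ∀ k ∈ s, ∀ l ∈ s, k ≠ l → Disjoint (A k) (A l))
    (hY : ∀ k ∈ s, Dep (A k) (Y k)) (hX : ∀ k ∈ s, ∀ ω, X ω ≤ Y k ω) (j : ℕ) :
    pr (fun ω => j ≤ X ω) ≤ ∏ k ∈ s, pr (fun ω => j ≤ Y k ω) := by
  classical
  have h1 : avg (fun ω => ∏ k ∈ s, (if j ≤ Y k ω then (1 : ℝ) else 0)) =
      ∏ k ∈ s, pr (fun ω => j ≤ Y k ω) := by
    unfold pr
    rw [avg_prod s hA (fun k hk => (hY k hk).comp fun n => if j ≤ n then (1 : ℝ) else 0)]
    apply prod_congr rfl
    intro k _
    congr 1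
    funext ω
    congr
  rw [← h1]
  unfold pr
  apply avg_mono
  intro ω
  split_ifs with h
  · rw [prod_eq_one]
    intro k hk
    rw [if_pos (le_trans h (hX k hk ω))]
  · exact prod_nonneg fun k _ => by split_ifs <;> norm_num

/-- the base of an exponential moment can be made small by cutting into independent bands -/
theorem avg_pow_bands {κ : Type*} [DecidableEq κ] (s : Finset κ) {A : κ → Set ι}
    {X : (ι → Bool) → ℕ} {Y : κ → (ι → Bool) → ℕ}
    (hA : ∀ k ∈ s, ∀ l ∈ s, k ≠ l → Disjoint (A k) (A l))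
    (hY : ∀ k ∈ s, Dep (A k) (Y k)) (hX : ∀ k ∈ s, ∀ ω, X ω ≤ Y k ω) {x y : ℝ} (hx : 0 ≤ x)
    (hy : 1 ≤ y) (hxy : x ≤ y ^ s.card) :
    avg (fun ω => x ^ X ω) ≤ ∏ k ∈ s, avg (fun ω => y ^ Y k ω) := by
  rw [← avg_prod s hA (fun k hk => (hY k hk).comp fun n => y ^ n)]
  apply avg_mono
  intro ω
  calc x ^ X ω ≤ (y ^ s.card) ^ X ω := by gcongr
    _ = ∏ _k ∈ s, y ^ X ω := by rw [prod_const, ← pow_mul, ← pow_mul, mul_comm]
    _ ≤ ∏ k ∈ s, y ^ Y k ω := by
      apply prod_le_prod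
      · intro k _; positivity
      · intro k hk
        exact pow_le_pow_right₀ hy (hX k hk ω)

end Full.Mom
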